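import Pool.Agent.W687.RotIso1
import Pool.Agent.W687.RotIso3

/-!
# Banach-Mazur rotation problem: spaces with an isotropic summand

Let `E` be a separable real Banach space with transitive norm and `P` a linear projection,
different from `0` and from the identity, such that `‖x‖` depends only on the vector `P x` and on
the number `‖x - P x‖` (the kernel of `P` enters isotropically, nothing is assumed on the range).
Then `E` is a Hilbert space.

The absolute sums `‖x‖ = Φ (‖P x‖, ‖x - P x‖)` of `AbsoluteSum.lean`, the sums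
`‖x‖ = Φ (‖P₁ x‖, ‖P₂ x‖, ...)` of finitely or infinitely many subspaces and the spaces with an
isometric reflection (`ker P` a line) are all of this kind.

Proof outline (files `Pool/Agent/W687/Rot*`).

1. `1 - 2 P` is isometric.  As for `AbsoluteSum.lean` (`RotNear.lean`: Baire category,
   `RotCalc.lean`, `RotSpec.lean`: smooth functional calculus of the isometry
   `U = (1 - 2 P) (1 - 2 R)` with `R` a conjugate of `P`) there are almost eigenvectors `w` in
   `ker P` of `(U + U⁻¹) / 2` with eigenvalue `cos θ`, `θ > 0` as small as we please.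
2. `RotPl2.lean`, `RotIso1.lean`: the isometry `U` almost rotates the plane of `w` and of a unit
   vector `v` of the range, so its norm is almost Euclidean and a power `V` of `U` is almost the
   rotation by `π / 4`.
3. `RotUltra.lean`, `RotIso2.lean`: in the ultrapower the rotation is exact.  For `y` in the kernel
   the function `m (a) = ‖y + a w‖ ^ 2` satisfies `‖y + a w + c v‖ ^ 2 = c ^ 2 + m (a)`; applying
   `V` and the isotropy once more one finds that `m (a) - a ^ 2` has increments which do not depend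
   on the place, so it is an affine function of `a`.
4. `RotIso3.lean`: moving `w` to a given unit vector `e` of `E` by isometries, the slope is a linear
   functional `f` on `E` with `f (e) = 2` and `‖z - f (z) e‖ = ‖z‖`, an isometric reflection.
5. `RotRefl.lean`: if all unit vectors admit isometric reflections, the products of two of them
   rotate every plane by small angles, and the norm is Euclidean.
-/

set_option autoImplicit false
set_option linter.unusedVariables false

namespace Pool.Agent.Results.MP_cc72b1_an.IsotropicSummand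

theorem result :
    ∀ (E : Type) [NormedAddCommGroup E] [NormedSpace ℝ E] [CompleteSpace E]
      [TopologicalSpace.SeparableSpace E] (P : E →ₗ[ℝ] E),
      (∀ x y : E, ‖x‖ = 1 → ‖y‖ = 1 → ∃ T : E ≃ₗᵢ[ℝ] E, T x = y) →
      (∀ x, P (P x) = P x) → (∃ x, P x ≠ 0) → (∃ x, P x ≠ x) →
      (∀ x y : E, P x = P y → ‖x - P x‖ = ‖y - P y‖ → ‖x‖ = ‖y‖) →
      ∃ (H : Type) (instH : NormedAddCommGroup H) (instI : InnerProductSpace ℝ H)
        (instC : CompleteSpace H), Nonempty (E ≃ₗᵢ[ℝ] H) := by
  intro E _ _ _ _ P htr hP hP0 hP1 hiso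
  -- the reflection is isometric
  have hs : ∀ z, ‖z - (2 : ℝ) • P z‖ = ‖z‖ := by
    intro z
    have e0 : P (z - (2 : ℝ) • P z) = - P z := by
      rw [map_sub, map_smul, hP]; module
    have e1 : P (-(z - (2 : ℝ) • P z)) = P z := by rw [map_neg, e0, neg_neg]
    rw [← norm_neg]
    apply hiso
    · exact e1
    · rw [e1, ← norm_neg]
      congr 1
      module
  have hb : ∀ z, ‖P z‖ ≤ ‖z‖ := by
    intro z
    have e1 : P z = (1 / 2 : ℝ) • (z - (z - (2 : ℝ) • P z)) := by module
    rw [e1, norm_smul]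
    have := norm_sub_le z (z - (2 : ℝ) • P z)
    rw [hs] at this
    rw [Real.norm_of_nonneg (by norm_num : (0:ℝ) ≤ 1 / 2)]
    linarith
  have hb2 : ∀ z, ‖z - P z‖ ≤ ‖z‖ := by
    intro z
    have e1 : z - P z = (1 / 2 : ℝ) • (z + (z - (2 : ℝ) • P z)) := by module
    rw [e1, norm_smul]
    have := norm_add_le z (z - (2 : ℝ) • P z)
    rw [hs] at this
    rw [Real.norm_of_nonneg (by norm_num : (0:ℝ) ≤ 1 / 2)]
    linarith
  set Pc : E →L[ℝ] E := P.mkContinuous 1 (fun z => by rw [one_mul]; exact hb z) with hPc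
  have hPca : ∀ z, Pc z = P z := fun z => rfl
  -- unit vectors in the kernel and in the range
  obtain ⟨w1, hw1⟩ := hP0
  obtain ⟨y1, hy1⟩ := hP1
  have hw1n : 0 < ‖P w1‖ := norm_pos_iff.2 hw1
  have hy1n : 0 < ‖y1 - P y1‖ := norm_pos_iff.2 (sub_ne_zero.2 (Ne.symm hy1))
  obtain ⟨w0, hw0n, hPw⟩ : ∃ w0 : E, ‖w0‖ = 1 ∧ P w0 = w0 := by
    refine ⟨‖P w1‖⁻¹ • P w1, ?_, ?_⟩
    · rw [norm_smul, norm_inv, norm_norm, inv_mul_cancel₀ hw1n.ne']
    · rw [map_smul, hP]
  obtain ⟨y0, hy0n, hPy⟩ : ∃ y0 : E, ‖y0‖ = 1 ∧ P y0 = 0 := by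
    refine ⟨‖y1 - P y1‖⁻¹ • (y1 - P y1), ?_, ?_⟩
    · rw [norm_smul, norm_inv, norm_norm, inv_mul_cancel₀ hy1n.ne']
    · rw [map_smul, map_sub, hP, sub_self, smul_zero]
  have hstar := fun n : ℕ => Pool.Agent.W687.Rot.star htr Pc hP hs hb hb2 y0 w0 hy0n hw0n hPy hPw
    (1 / ((n : ℝ) + 1)) (by positivity)
  choose w v V h1 h2 h3 h4 h5 h6 h7 using hstar
  have key := Pool.Agent.W687.Rot.parallelogram_of_refl (E := E) (fun e he =>
    Pool.Agent.W687.Rot.refl_of_seq P hP hb hiso htr w v V _
      tendsto_one_div_add_atTop_nhds_zero_nat h1 h2 h3 h4 h5 h6 h7 e he)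
  exact ⟨E, inferInstance, InnerProductSpace.ofNorm ℝ key, inferInstance,
    ⟨LinearIsometryEquiv.refl ℝ E⟩⟩

end Pool.Agent.Results.MP_cc72b1_an.IsotropicSummand
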